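import Pool.Agent.Work.MP_cea1f0_al.A4
import Pool.Agent.Work.MP_cea1f0_al.D.Final

/-! Puig finiteness for the principal blocks of all finite general linear groups. -/

open Pool.Agent.Puig

theorem Pool.Agent.Puig.principalGL (p : ℕ) [Fact p.Prime] (F : Type)
    [Field F] [CharP F p] (P : Type) [Group P] [Finite P] :
    ∃ (N : ℕ) (A : Fin N → Type) (_ : ∀ j, Ring (A j)) (_ : ∀ j, Algebra F (A j))
      (α : ∀ j, P →* (A j)ˣ), (∀ j, FiniteDimensional F (A j)) ∧
      ∀ (n : ℕ) (K : Type) [Field K] [Finite K] (b : MonoidAlgebra F (GL (Fin n) K))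
        (D : Subgroup (GL (Fin n) K)) (i : MonoidAlgebra F (GL (Fin n) K)),
        IsBlock b → aug b = 1 → IsDefect p b D → Nonempty (D ≃* P) → IsSource b D i →
        ∃ j, IsoSrc (α j) D i :=
  main_GL p (fun n => PD.glData p n) F P
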